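import Pool.Agent.H70.HZ.KER

/-!
# MP_eb1332_ag, modules HBSYZ and HBRED: syzygies of maximal minors, removing a unit entry
-/

namespace Pool.Agent.H70.HZ.HBSYZ

open Matrix Pool.Agent.H12.HS Pool.Agent.H70.HZ.KER

universe u

section
variable {A : Type u} [CommRing A] {m : ℕ}

omit [CommRing A] in
theorem bord_updateCol (M : Matrix (Fin (m + 1)) (Fin m) A) (c g : Fin (m + 1) → A) :
    (bord M c).updateCol 0 g = bord M g := by
  ext i j
  rw [Matrix.updateCol_apply]
  refine Fin.cases ?_ (fun j => ?_) j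
  · simp [bord]
  · rw [if_neg (Fin.succ_ne_zero j)]
    simp [bord]

/-- expansion of the bordered determinant -/
theorem det_bord (M : Matrix (Fin (m + 1)) (Fin m) A) (g : Fin (m + 1) → A) :
    (bord M g).det = ∑ i, g i * dl M i := by
  have h1 : ∀ g : Fin (m + 1) → A, (bord M g).det = Matrix.cramer (bord M 0) g 0 := by
    intro g
    rw [Matrix.cramer_apply, bord_updateCol]
  rw [h1, LinearMap.pi_apply_eq_sum_univ (Matrix.cramer (bord M 0)) g, Finset.sum_apply]
  apply Finset.sum_congr rfl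
  intro i _
  rw [Pi.smul_apply, smul_eq_mul]
  have e : (fun j => if i = j then (1 : A) else 0) = Pi.single i 1 := by
    ext j
    by_cases hij : i = j
    · subst hij; simp
    · rw [if_neg hij, Pi.single_eq_of_ne (Ne.symm hij)]
  unfold dl
  rw [h1, e]

theorem bord_mulVec (M : Matrix (Fin (m + 1)) (Fin m) A) (c : Fin (m + 1) → A)
    (v : Fin (m + 1) → A) : bord M c *ᵥ v = v 0 • c + M *ᵥ (fun j => v j.succ) := by
  ext i
  rw [Matrix.mulVec, dotProduct, Fin.sum_univ_succ]
  simp only [bord, Matrix.of_apply, Fin.cons_zero, Fin.cons_succ, Pi.add_apply, Pi.smul_apply,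
    smul_eq_mul, Matrix.mulVec, dotProduct]
  ring

/-- every minor times a syzygy comes from the columns -/
theorem dl_smul_mem (M : Matrix (Fin (m + 1)) (Fin m) A) (g : Fin (m + 1) → A)
    (hg : ∑ i, g i * dl M i = 0) (i0 : Fin (m + 1)) : ∃ c : Fin m → A, dl M i0 • g = M *ᵥ c := by
  refine ⟨fun j => Matrix.cramer (bord M (Pi.single i0 1)) g j.succ, ?_⟩
  have h1 := Matrix.mulVec_cramer (bord M (Pi.single i0 1)) g
  rw [bord_mulVec] at h1
  have h2 : Matrix.cramer (bord M (Pi.single i0 1)) g 0 = 0 := by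
    rw [Matrix.cramer_apply, bord_updateCol, det_bord, hg]
  rw [h2, zero_smul, zero_add] at h1
  exact h1.symm

end

/-- [HBSYZ] -/
theorem hbsyz (hRS : T_RS.{u}) (hDOM : T_DOM.{u}) : T_HBSYZ.{u} := by
  intro Ω _ _ _ m M hC g hg
  have hdom : IsDomain (AA Ω) := (hDOM Ω).2
  obtain ⟨N, hx, hy⟩ := id hC
  obtain ⟨i0, hi0⟩ := exists_ne hC
  have hinj : ∀ v : Fin m → AA Ω, M *ᵥ v = 0 → v = 0 := by
    intro v hv
    have h1 : bord M (Pi.single i0 1) *ᵥ (Fin.cons 0 v : Fin (m + 1) → AA Ω) = 0 := by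
      rw [bord_mulVec]
      simp only [Fin.cons_zero, zero_smul, Fin.cons_succ, zero_add]
      exact hv
    have h2 := Matrix.eq_zero_of_mulVec_eq_zero hi0 h1
    ext1 j
    have h3 := congrFun h2 j.succ
    simpa using h3
  choose c0 hc0 using fun i => dl_smul_mem M g hg i
  have key : ∀ δ : AA Ω, δ ∈ Ideal.span (Set.range (dl M)) → ∃ c : Fin m → AA Ω,
      δ • g = M *ᵥ c := by
    intro δ hδ
    obtain ⟨a, ha⟩ := (Ideal.mem_span_range_iff_exists_fun).1 hδ
    refine ⟨∑ i, a i • c0 i, ?_⟩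
    rw [← ha, Finset.sum_smul, Matrix.mulVec_sum]
    apply Finset.sum_congr rfl
    intro i _
    rw [Matrix.mulVec_smul, ← hc0 i, smul_smul]
  obtain ⟨c, hc⟩ := key _ hx
  obtain ⟨c', hc'⟩ := key _ hy
  have h1 : M *ᵥ (ay Ω ^ N • c - ax Ω ^ N • c') = 0 := by
    rw [Matrix.mulVec_sub, Matrix.mulVec_smul, Matrix.mulVec_smul, ← hc, ← hc', smul_smul,
      smul_smul, mul_comm, sub_self]
  have h2 := sub_eq_zero.1 (hinj _ h1)
  have h3 : ∀ j, ∃ d, c' j = ay Ω ^ N * d ∧ c j = ax Ω ^ N * d := by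
    intro j
    have h4 := congrFun h2 j
    simp only [Pi.smul_apply, smul_eq_mul] at h4
    exact (hRS Ω N N).2 _ _ h4.symm
  choose d _ hd2 using h3
  refine ⟨d, ?_⟩
  have h5 : ax Ω ^ N • g = ax Ω ^ N • (M *ᵥ d) := by
    rw [hc, ← Matrix.mulVec_smul]
    congr 1
    ext1 j
    exact hd2 j
  ext1 i
  have h6 := congrFun h5 i
  simp only [Pi.smul_apply, smul_eq_mul] at h6
  exact mul_left_cancel₀ (ax_ne_zero N) h6

/-- [HBRED] -/
theorem hbred : T_HBRED.{u} := by
  intro A _ m M hu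
  obtain ⟨u, hu⟩ := hu
  set M' : Matrix (Fin (m + 1)) (Fin m) A := Matrix.of fun i j =>
    M i.succ j.succ - M i.succ 0 * (↑u⁻¹ : A) * M 0 j.succ with hM'
  have huu : (↑u⁻¹ : A) * M 0 0 = 1 := by rw [← hu]; simp
  -- the determinant formula
  have key : ∀ c : Fin (m + 2) → A, (bord M c).det =
      -(M 0 0) * (bord M' (fun i => c i.succ - M i.succ 0 * (↑u⁻¹ : A) * c 0)).det := by
    intro c
    set B : Matrix (Fin (m + 2)) (Fin (m + 2)) A := Matrix.of fun i j =>
      bord M c i j + (Fin.cases 0 (fun i => -(M i.succ 0 * (↑u⁻¹ : A))) i : A) * bord M c 0 j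
      with hB
    have h1 : B.det = (bord M c).det := by
      apply Matrix.det_eq_of_forall_row_eq_smul_add_const
        (c := fun i => (Fin.cases 0 (fun i => -(M i.succ 0 * (↑u⁻¹ : A))) i : A)) (k := 0)
      · rfl
      · intro i j
        rfl
    rw [← h1, Matrix.det_succ_column B (Fin.succ 0), Fin.sum_univ_succ]
    have h2 : ∀ i : Fin (m + 1), B i.succ (Fin.succ 0) = 0 := by
      intro i
      simp only [hB, Matrix.of_apply, bord, Fin.cons_succ, Fin.cases_succ]
      calc M i.succ 0 + -(M i.succ 0 * (↑u⁻¹ : A)) * M 0 0 =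
          M i.succ 0 - M i.succ 0 * ((↑u⁻¹ : A) * M 0 0) := by ring
        _ = 0 := by rw [huu]; ring
    have h3 : B 0 (Fin.succ 0) = M 0 0 := by
      simp [hB, bord]
    simp only [h2, mul_zero, zero_mul, Finset.sum_const_zero, add_zero, h3]
    have h4 : B.submatrix (Fin.succAbove 0) (Fin.succAbove (Fin.succ 0)) =
        bord M' (fun i => c i.succ - M i.succ 0 * (↑u⁻¹ : A) * c 0) := by
      ext i j
      rw [Matrix.submatrix_apply, Fin.succAbove_zero]
      refine Fin.cases ?_ (fun j => ?_) j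
      · rw [Fin.succ_succAbove_zero]
        simp only [hB, Matrix.of_apply, bord, Fin.cons_zero, Fin.cases_succ]
        ring
      · rw [Fin.succ_succAbove_succ, Fin.succAbove_zero]
        simp only [hB, Matrix.of_apply, bord, Fin.cons_succ, Fin.cases_succ, hM']
        ring
    rw [h4]
    simp
  refine ⟨M', le_antisymm ?_ ?_⟩
  · rw [Ideal.span_le]
    rintro _ ⟨i, rfl⟩
    have h1 := key (Fin.cons 0 (Pi.single i 1))
    have h2 : (fun i' : Fin (m + 1) => (Fin.cons 0 (Pi.single i 1) : Fin (m + 2) → A) i'.succ -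
        M i'.succ 0 * (↑u⁻¹ : A) * (Fin.cons 0 (Pi.single i 1) : Fin (m + 2) → A) 0) =
        Pi.single i 1 := by
      ext i'
      simp only [Fin.cons_succ, Fin.cons_zero, mul_zero, sub_zero]
    rw [h2] at h1
    have h3 : dl M' i = -(↑u⁻¹ : A) * (bord M (Fin.cons 0 (Pi.single i 1))).det := by
      rw [h1]
      unfold dl
      calc (bord M' (Pi.single i 1)).det = ((↑u⁻¹ : A) * M 0 0) *
            (bord M' (Pi.single i 1)).det := by rw [huu, one_mul]
        _ = _ := by ring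
    rw [SetLike.mem_coe, h3, det_bord]
    apply Ideal.mul_mem_left
    apply Ideal.sum_mem
    intro j _
    exact Ideal.mul_mem_left _ _ (Ideal.subset_span ⟨j, rfl⟩)
  · rw [Ideal.span_le]
    rintro _ ⟨i, rfl⟩
    rw [SetLike.mem_coe]
    unfold dl
    rw [key, det_bord]
    apply Ideal.mul_mem_left
    apply Ideal.sum_mem
    intro j _
    exact Ideal.mul_mem_left _ _ (Ideal.subset_span ⟨j, rfl⟩)

end Pool.Agent.H70.HZ.HBSYZ
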