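import Mathlib

/-!
# Rank argument over a domain
-/

namespace Pool.Agent.H70.HZ

/-- an injective map between modules of equal rank over a domain has torsion cokernel -/
theorem tors {R M V : Type*} [CommRing R] [IsDomain R] [AddCommGroup M] [Module R M]
    [Module.Finite R M] [AddCommGroup V] [Module R V] (ι : V →ₗ[R] M)
    (hι : Function.Injective ι) (h : Module.finrank R M ≤ Module.finrank R V) (x : M) :
    ∃ a : R, a ≠ 0 ∧ ∃ v, a • x = ι v := by
  have h1 := Submodule.finrank_quotient_add_finrank (LinearMap.range ι)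
  have h2 : Module.finrank R (LinearMap.range ι) = Module.finrank R V :=
    (LinearEquiv.ofInjective ι hι).finrank_eq.symm
  have h3 : Module.finrank R (M ⧸ LinearMap.range ι) = 0 := by omega
  obtain ⟨a, ha, hax⟩ := (Module.finrank_eq_zero_iff.1 h3) (Submodule.Quotient.mk x)
  refine ⟨a, ha, ?_⟩
  rw [← Submodule.Quotient.mk_smul, Submodule.Quotient.mk_eq_zero] at hax
  obtain ⟨v, hv⟩ := hax
  exact ⟨v, hv.symm⟩

/-- rank-nullity -/
theorem finrank_ker_add {R M M' : Type*} [CommRing R] [IsDomain R] [AddCommGroup M] [Module R M]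
    [Module.Finite R M] [AddCommGroup M'] [Module R M'] (φ : M →ₗ[R] M') :
    Module.finrank R (LinearMap.range φ) + Module.finrank R (LinearMap.ker φ) =
      Module.finrank R M := by
  rw [← φ.quotKerEquivRange.finrank_eq]
  exact Submodule.finrank_quotient_add_finrank _

end Pool.Agent.H70.HZ
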