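import Pool.Agent.H12.HS.Targets
import Pool.Agent.H12.HS.Basic
import Pool.Agent.H70.HZ.RankAux

/-!
# MP_eb1332_ag, module KER: the relations of the rows are the multiples of `f`
-/

namespace Pool.Agent.H70.HZ.KER

open Matrix Pool.Agent.H12.HS

universe u

section
variable {Ω : Type u} [Field Ω] {m : ℕ} {n : Type} [Fintype n] [DecidableEq n]

/-- `act` as a linear map -/
noncomputable def actL (T : Matrix n n (P2 Ω)) (lam : Fin (m + 1) → n → P2 Ω) :
    (Fin (m + 1) → AA Ω) →ₗ[P2 Ω] (n → P2 Ω) where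
  toFun := act T lam
  map_add' r r' := act_add T lam r r'
  map_smul' c r := by
    simp only [act, Finset.smul_sum, Pi.smul_apply, QuadraticAlgebra.re_smul,
      QuadraticAlgebra.im_smul, smul_add, smul_smul, smul_eq_mul, RingHom.id_apply]

omit [DecidableEq n] in
theorem actL_apply (T : Matrix n n (P2 Ω)) (lam : Fin (m + 1) → n → P2 Ω)
    (r : Fin (m + 1) → AA Ω) : actL T lam r = act T lam r := rfl

theorem ax_ne_zero (N : ℕ) : ax Ω ^ N ≠ 0 := by
  rw [ax_pow]
  intro h
  have := congrArg QuadraticAlgebra.re h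
  exact pow_ne_zero N (px_ne_zero (Ω := Ω)) this

theorem ay_ne_zero (N : ℕ) : ay Ω ^ N ≠ 0 := by
  rw [ay_pow]
  intro h
  have := congrArg QuadraticAlgebra.re h
  exact pow_ne_zero N (py_ne_zero (Ω := Ω)) this

theorem exists_ne {f : Fin (m + 1) → AA Ω} (h : Cof (Ideal.span (Set.range f))) :
    ∃ i, f i ≠ 0 := by
  by_contra hcon
  push Not at hcon
  have h1 : Ideal.span (Set.range f) = ⊥ := by
    rw [Ideal.span_eq_bot]
    rintro _ ⟨i, rfl⟩
    exact hcon i
  obtain ⟨N, h2, -⟩ := h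
  rw [h1, Ideal.mem_bot] at h2
  exact ax_ne_zero N h2

theorem finrank_AAfun (m : ℕ) : Module.finrank (P2 Ω) (Fin (m + 1) → AA Ω) = (m + 1) * 2 := by
  rw [Module.finrank_pi_fintype]
  simp [QuadraticAlgebra.finrank_eq_two]

end

theorem ker (hRS : T_RS.{u}) (hDOM : T_DOM.{u}) : T_KER.{u} := by
  intro Ω _ _ _ m n _ _ T lam f hP r hr
  have hdom : IsDomain (AA Ω) := (hDOM Ω).2
  obtain ⟨N, hN⟩ := hP.cofM
  obtain ⟨N', hx', hy'⟩ := hP.cofI
  obtain ⟨i0, hi0⟩ := exists_ne hP.cofI
  -- rank of the kernel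
  have hrk : Module.finrank (P2 Ω) (LinearMap.ker (actL T lam)) ≤ 2 := by
    have h1 := finrank_ker_add (actL T lam)
    rw [finrank_AAfun] at h1
    have h2 : Fintype.card n ≤ Module.finrank (P2 Ω) (LinearMap.range (actL T lam)) := by
      let j : (n → P2 Ω) →ₗ[P2 Ω] LinearMap.range (actL T lam) :=
        LinearMap.codRestrict _ ((px Ω ^ N) • LinearMap.id) (by
          intro ρ
          obtain ⟨r', hr'⟩ := (hN ρ).1
          exact ⟨r', by rw [actL_apply, hr']; rfl⟩)
      have hj : Function.Injective j := by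
        intro a b hab
        have h3 := congrArg Subtype.val hab
        have h4 : px Ω ^ N • a = px Ω ^ N • b := h3
        exact smul_right_injective _ (pow_ne_zero N px_ne_zero) h4
      have h5 := LinearMap.finrank_le_finrank_of_injective hj
      rwa [Module.finrank_pi] at h5
    have h3 := hP.card
    omega
  -- the multiples of f
  let ι : AA Ω →ₗ[P2 Ω] LinearMap.ker (actL T lam) :=
    LinearMap.codRestrict _ (LinearMap.pi fun i => LinearMap.mulRight (P2 Ω) (f i)) (by
      intro θ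
      rw [LinearMap.mem_ker, actL_apply]
      have h1 := act_mul T hP.sq lam θ f
      have h2 : (LinearMap.pi fun i => LinearMap.mulRight (P2 Ω) (f i)) θ = fun i => θ * f i := by
        ext i <;> rfl
      rw [h2, h1, hP.rel]
      simp)
  have hι : Function.Injective ι := by
    intro a b hab
    have h1 := congrFun (congrArg Subtype.val hab) i0
    have h2 : a * f i0 = b * f i0 := h1
    exact mul_right_cancel₀ hi0 h2
  obtain ⟨h, hh0, θ, hθ⟩ := tors ι hι (by
    rw [QuadraticAlgebra.finrank_eq_two]; exact hrk) ⟨r, by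
      rw [LinearMap.mem_ker, actL_apply]; exact hr⟩
  have hθ' : ∀ i, algebraMap (P2 Ω) (AA Ω) h * r i = θ * f i := by
    intro i
    have h1 := congrFun (congrArg Subtype.val hθ) i
    rw [← Algebra.smul_def]
    exact h1
  have hh : algebraMap (P2 Ω) (AA Ω) h ≠ 0 := by
    intro h0
    apply hh0
    have := congrArg QuadraticAlgebra.re h0
    exact this
  -- the two powers
  obtain ⟨c, hc⟩ := (Ideal.mem_span_range_iff_exists_fun).1 hx'
  obtain ⟨c', hc'⟩ := (Ideal.mem_span_range_iff_exists_fun).1 hy'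
  have hA : algebraMap (P2 Ω) (AA Ω) h * (∑ i, c i * r i) = θ * ax Ω ^ N' := by
    rw [← hc, Finset.mul_sum, Finset.mul_sum]
    apply Finset.sum_congr rfl
    intro i _
    rw [mul_left_comm, hθ' i]; ring
  have hB : algebraMap (P2 Ω) (AA Ω) h * (∑ i, c' i * r i) = θ * ay Ω ^ N' := by
    rw [← hc', Finset.mul_sum, Finset.mul_sum]
    apply Finset.sum_congr rfl
    intro i _
    rw [mul_left_comm, hθ' i]; ring
  have hAB : ax Ω ^ N' * (∑ i, c' i * r i) = ay Ω ^ N' * (∑ i, c i * r i) := by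
    apply mul_left_cancel₀ hh
    calc algebraMap (P2 Ω) (AA Ω) h * (ax Ω ^ N' * (∑ i, c' i * r i)) =
        ax Ω ^ N' * (algebraMap (P2 Ω) (AA Ω) h * (∑ i, c' i * r i)) := by ring
      _ = ay Ω ^ N' * (algebraMap (P2 Ω) (AA Ω) h * (∑ i, c i * r i)) := by rw [hA, hB]; ring
      _ = _ := by ring
  obtain ⟨d, hd1, hd2⟩ := (hRS Ω N' N').2 _ _ hAB
  have hθd : θ = algebraMap (P2 Ω) (AA Ω) h * d := by
    apply mul_right_cancel₀ (ax_ne_zero (Ω := Ω) N')
    rw [← hA, hd2]
    ring
  refine ⟨d, fun i => ?_⟩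
  apply mul_left_cancel₀ hh
  rw [hθ' i, hθd]
  ring

end Pool.Agent.H70.HZ.KER
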