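import Pool.Agent.H12.HS.Targets
import Pool.Agent.H12.HS.Basic

/-!
# MP_eb1332_ag, module RS: powers of `x` and `y` form regular sequences
-/

namespace Pool.Agent.H70.HZ.RS

open Pool.Agent.H12.HS

universe u

theorem rsP (Ω : Type u) [Field Ω] (N M : ℕ) (a b : P2 Ω) (h : px Ω ^ N * a = py Ω ^ M * b) :
    ∃ c, a = py Ω ^ M * c ∧ b = px Ω ^ N * c := by
  have h1 : ∀ i j, (if N ≤ i then cf (i - N) j a else 0) = if M ≤ j then cf i (j - M) b else 0 := by
    intro i j
    rw [← cf_px_pow_mul, ← cf_py_pow_mul, h]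
  have h2 : (PowerSeries.X : PowerSeries (PowerSeries Ω)) ^ M ∣ a := by
    rw [PowerSeries.X_pow_dvd_iff]
    intro j hj
    ext i
    have h3 := h1 (i + N) j
    rw [if_pos (by omega), if_neg (by omega), Nat.add_sub_cancel] at h3
    rw [map_zero]
    exact h3
  obtain ⟨c, hc⟩ := h2
  have hc' : a = py Ω ^ M * c := hc
  refine ⟨c, hc', ?_⟩
  have h4 : py Ω ^ M * (px Ω ^ N * c) = py Ω ^ M * b := by
    rw [← h, hc']; ring
  exact (mul_left_cancel₀ (pow_ne_zero M py_ne_zero) h4).symm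

theorem rs : T_RS.{u} := by
  intro Ω _ N M
  refine ⟨rsP Ω N M, ?_⟩
  intro a b h
  rw [ax_pow, ay_pow] at h
  have hre := congrArg QuadraticAlgebra.re h
  have him := congrArg QuadraticAlgebra.im h
  rw [QuadraticAlgebra.re_mul, QuadraticAlgebra.re_mul] at hre
  rw [QuadraticAlgebra.im_mul, QuadraticAlgebra.im_mul] at him
  simp only [mul_zero, zero_mul, add_zero] at hre him
  obtain ⟨c1, h1, h2⟩ := rsP Ω N M a.re b.re hre
  obtain ⟨c2, h3, h4⟩ := rsP Ω N M a.im b.im him
  refine ⟨⟨c1, c2⟩, ?_, ?_⟩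
  · rw [ay_pow]
    apply QuadraticAlgebra.ext
    · rw [QuadraticAlgebra.re_mul]
      simp only [mul_zero, zero_mul, add_zero]
      exact h1
    · rw [QuadraticAlgebra.im_mul]
      simp only [mul_zero, zero_mul, add_zero]
      exact h3
  · rw [ax_pow]
    apply QuadraticAlgebra.ext
    · rw [QuadraticAlgebra.re_mul]
      simp only [mul_zero, zero_mul, add_zero]
      exact h2
    · rw [QuadraticAlgebra.im_mul]
      simp only [mul_zero, zero_mul, add_zero]
      exact h4

end Pool.Agent.H70.HZ.RS
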