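import Pool.Agent.H70.HZ.SYZ

/-!
# MP_eb1332_ag, module STEP: a Hecke datum of a presentation gives a family
-/

namespace Pool.Agent.H70.HZ.STEP

open Matrix Pool.Agent.H12.HS Pool.Agent.H70.HZ.KER

universe u

section
variable {P : Type u} [CommRing P] {g : P} {n N : Type} [Fintype n] [Fintype N]

/-- the vectors of real and imaginary parts -/
def vRE (lam : N → n → P) (f : N → QuadraticAlgebra P g 0) : n → P := ∑ i, (f i).re • lam i
def vIM (lam : N → n → P) (f : N → QuadraticAlgebra P g 0) : n → P := ∑ i, (f i).im • lam i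

theorem act_eq (T : Matrix n n P) (lam : N → n → P) (f : N → QuadraticAlgebra P g 0) :
    act T lam f = vRE lam f + vIM lam f ᵥ* T := by
  simp only [act, vRE, vIM, Matrix.sum_vecMul, Matrix.smul_vecMul, Finset.sum_add_distrib]

theorem act1_eq (D : Matrix n n P) (lam : N → n → P) (f : N → QuadraticAlgebra P g 0) :
    act1 D lam f = vIM lam f ᵥ* D := by
  simp only [act1, vIM, Matrix.sum_vecMul, Matrix.smul_vecMul]

theorem vRE_dot (lam : N → n → P) (f : N → QuadraticAlgebra P g 0) (v : n → P) :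
    vRE lam f ⬝ᵥ v = ∑ i, (f i).re * (lam i ⬝ᵥ v) := by
  simp only [vRE, sum_dotProduct, smul_dotProduct, smul_eq_mul]

theorem vIM_dot (lam : N → n → P) (f : N → QuadraticAlgebra P g 0) (v : n → P) :
    vIM lam f ⬝ᵥ v = ∑ i, (f i).im * (lam i ⬝ᵥ v) := by
  simp only [vIM, sum_dotProduct, smul_dotProduct, smul_eq_mul]

theorem re_sum (a : N → QuadraticAlgebra P g 0) : (∑ i, a i).re = ∑ i, (a i).re :=
  map_sum (QuadraticAlgebra.reₗ (R := P) g 0) _ _

theorem im_sum (a : N → QuadraticAlgebra P g 0) : (∑ i, a i).im = ∑ i, (a i).im :=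
  map_sum (QuadraticAlgebra.imₗ (R := P) g 0) _ _

/-- span of the rows -/
theorem mem_span_iff (T : Matrix n n P) (lam : N → n → P) (x : n → P) :
    x ∈ Submodule.span P (Set.range (Sum.elim lam fun i => lam i ᵥ* T)) ↔
      ∃ r : N → QuadraticAlgebra P g 0, act T lam r = x := by
  rw [Submodule.mem_span_range_iff_exists_fun]
  constructor
  · rintro ⟨c, hc⟩
    refine ⟨fun i => ⟨c (Sum.inl i), c (Sum.inr i)⟩, ?_⟩
    rw [← hc, Fintype.sum_sum_type]
    simp only [act, Sum.elim_inl, Sum.elim_inr, Finset.sum_add_distrib]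
  · rintro ⟨r, hr⟩
    refine ⟨Sum.elim (fun i => (r i).re) (fun i => (r i).im), ?_⟩
    rw [← hr, Fintype.sum_sum_type]
    simp only [act, Sum.elim_inl, Sum.elim_inr, Finset.sum_add_distrib]

/-- lifting of relations -/
theorem lift_rel [DecidableEq n] {T D1 D2 : Matrix n n P} (hT : T * T = g • (1 : Matrix n n P))
    (h1 : T * D1 + D1 * T = 0) (h2 : T * D2 + D2 * T + D1 * D1 = 0)
    (h3 : D1 * D2 + D2 * D1 = 0) (lam : N → n → P)
    (f f' : N → QuadraticAlgebra P g 0) (l0 : act T lam f = 0)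
    (l1 : act T lam f' + act1 D1 lam f = 0) (l2 : act1 D1 lam f' + act1 D2 lam f = 0)
    (l3 : act1 D2 lam f' = 0) (w : n → P) :
    ∑ i, (PowerSeries.C (hat g T (lam i) w) +
      PowerSeries.X * PowerSeries.C (⟨lam i ⬝ᵥ (D1 *ᵥ w), 0⟩ : QuadraticAlgebra P g 0) +
      PowerSeries.X ^ 2 * PowerSeries.C (⟨lam i ⬝ᵥ (D2 *ᵥ w), 0⟩ : QuadraticAlgebra P g 0)) *
      (PowerSeries.C (f i) + PowerSeries.X * PowerSeries.C (f' i)) = 0 := by
  set p := vIM lam f with hp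
  set p' := vIM lam f' with hp'
  rw [act_eq] at l0
  rw [act_eq, act1_eq] at l1
  rw [act1_eq, act1_eq] at l2
  rw [act1_eq] at l3
  rw [← hp] at l0 l1 l2
  rw [← hp'] at l1 l2 l3
  have r0 : ∀ v, vRE lam f ⬝ᵥ v = -(p ⬝ᵥ (T *ᵥ v)) := by
    intro v
    have := congrArg (fun x => x ⬝ᵥ v) l0
    simp only [add_dotProduct, zero_dotProduct, ← Matrix.dotProduct_mulVec] at this
    linear_combination this
  have r1 : ∀ v, vRE lam f' ⬝ᵥ v = -(p' ⬝ᵥ (T *ᵥ v)) - p ⬝ᵥ (D1 *ᵥ v) := by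
    intro v
    have := congrArg (fun x => x ⬝ᵥ v) l1
    simp only [add_dotProduct, zero_dotProduct, ← Matrix.dotProduct_mulVec] at this
    linear_combination this
  have r2 : ∀ v, p' ⬝ᵥ (D1 *ᵥ v) + p ⬝ᵥ (D2 *ᵥ v) = 0 := by
    intro v
    have := congrArg (fun x => x ⬝ᵥ v) l2
    simp only [add_dotProduct, zero_dotProduct, ← Matrix.dotProduct_mulVec] at this
    exact this
  have r3 : ∀ v, p' ⬝ᵥ (D2 *ᵥ v) = 0 := by
    intro v
    have := congrArg (fun x => x ⬝ᵥ v) l3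
    simp only [zero_dotProduct, ← Matrix.dotProduct_mulVec] at this
    exact this
  have m0 : ∀ (q v : n → P), q ⬝ᵥ (T *ᵥ (T *ᵥ v)) = g * (q ⬝ᵥ v) := by
    intro q v
    rw [Matrix.mulVec_mulVec, hT, Matrix.smul_mulVec, Matrix.one_mulVec, dotProduct_smul,
      smul_eq_mul]
  have m1 : ∀ (q v : n → P), q ⬝ᵥ (T *ᵥ (D1 *ᵥ v)) = -(q ⬝ᵥ (D1 *ᵥ (T *ᵥ v))) := by
    intro q v
    have := congrArg (fun A : Matrix n n P => q ⬝ᵥ (A *ᵥ v)) h1
    simp only [Matrix.add_mulVec, Matrix.zero_mulVec, dotProduct_add, dotProduct_zero,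
      ← Matrix.mulVec_mulVec] at this
    linear_combination this
  have m2 : ∀ (q v : n → P), q ⬝ᵥ (T *ᵥ (D2 *ᵥ v)) =
      -(q ⬝ᵥ (D2 *ᵥ (T *ᵥ v))) - q ⬝ᵥ (D1 *ᵥ (D1 *ᵥ v)) := by
    intro q v
    have := congrArg (fun A : Matrix n n P => q ⬝ᵥ (A *ᵥ v)) h2
    simp only [Matrix.add_mulVec, Matrix.zero_mulVec, dotProduct_add, dotProduct_zero,
      ← Matrix.mulVec_mulVec] at this
    linear_combination this
  have m3 : ∀ (q v : n → P), q ⬝ᵥ (D1 *ᵥ (D2 *ᵥ v)) = -(q ⬝ᵥ (D2 *ᵥ (D1 *ᵥ v))) := by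
    intro q v
    have := congrArg (fun A : Matrix n n P => q ⬝ᵥ (A *ᵥ v)) h3
    simp only [Matrix.add_mulVec, Matrix.zero_mulVec, dotProduct_add, dotProduct_zero,
      ← Matrix.mulVec_mulVec] at this
    linear_combination this
  -- the four coefficients
  have s0 : ∑ i, hat g T (lam i) w * f i = 0 := by
    apply QuadraticAlgebra.ext
    · rw [re_sum]
      simp only [QuadraticAlgebra.re_mul, hat, QuadraticAlgebra.re_zero]
      have : ∑ i, (lam i ⬝ᵥ (T *ᵥ w) * (f i).re + g * (lam i ⬝ᵥ w) * (f i).im) =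
          vRE lam f ⬝ᵥ (T *ᵥ w) + g * (p ⬝ᵥ w) := by
        rw [vRE_dot, hp, vIM_dot, Finset.mul_sum, ← Finset.sum_add_distrib]
        exact Finset.sum_congr rfl fun i _ => by ring
      rw [this, r0, m0]
      ring
    · rw [im_sum]
      simp only [QuadraticAlgebra.im_mul, hat, QuadraticAlgebra.im_zero, zero_mul, add_zero]
      have : ∑ i, (lam i ⬝ᵥ (T *ᵥ w) * (f i).im + (lam i ⬝ᵥ w) * (f i).re) =
          vRE lam f ⬝ᵥ w + p ⬝ᵥ (T *ᵥ w) := by
        rw [vRE_dot, hp, vIM_dot, ← Finset.sum_add_distrib]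
        exact Finset.sum_congr rfl fun i _ => by ring
      rw [this, r0]
      ring
  have s1 : ∑ i, (hat g T (lam i) w * f' i +
      (⟨lam i ⬝ᵥ (D1 *ᵥ w), 0⟩ : QuadraticAlgebra P g 0) * f i) = 0 := by
    apply QuadraticAlgebra.ext
    · rw [re_sum]
      simp only [QuadraticAlgebra.re_add, QuadraticAlgebra.re_mul, hat, QuadraticAlgebra.re_zero,
        mul_zero, zero_mul, add_zero]
      have : ∑ i, (lam i ⬝ᵥ (T *ᵥ w) * (f' i).re + g * (lam i ⬝ᵥ w) * (f' i).im +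
          lam i ⬝ᵥ (D1 *ᵥ w) * (f i).re) =
          vRE lam f' ⬝ᵥ (T *ᵥ w) + g * (p' ⬝ᵥ w) + vRE lam f ⬝ᵥ (D1 *ᵥ w) := by
        rw [vRE_dot, vRE_dot, hp', vIM_dot, Finset.mul_sum, ← Finset.sum_add_distrib,
          ← Finset.sum_add_distrib]
        exact Finset.sum_congr rfl fun i _ => by ring
      rw [this, r0, r1, m0, m1]
      ring
    · rw [im_sum]
      simp only [QuadraticAlgebra.im_add, QuadraticAlgebra.im_mul, hat, QuadraticAlgebra.im_zero,
        zero_mul, add_zero]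
      have : ∑ i, (lam i ⬝ᵥ (T *ᵥ w) * (f' i).im + (lam i ⬝ᵥ w) * (f' i).re +
          lam i ⬝ᵥ (D1 *ᵥ w) * (f i).im) =
          vRE lam f' ⬝ᵥ w + p' ⬝ᵥ (T *ᵥ w) + p ⬝ᵥ (D1 *ᵥ w) := by
        rw [vRE_dot, hp, hp', vIM_dot, vIM_dot, ← Finset.sum_add_distrib,
          ← Finset.sum_add_distrib]
        exact Finset.sum_congr rfl fun i _ => by ring
      rw [this, r1]
      ring
  have s2 : ∑ i, ((⟨lam i ⬝ᵥ (D1 *ᵥ w), 0⟩ : QuadraticAlgebra P g 0) * f' i +
      (⟨lam i ⬝ᵥ (D2 *ᵥ w), 0⟩ : QuadraticAlgebra P g 0) * f i) = 0 := by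
    apply QuadraticAlgebra.ext
    · rw [re_sum]
      simp only [QuadraticAlgebra.re_add, QuadraticAlgebra.re_mul, QuadraticAlgebra.re_zero,
        mul_zero, zero_mul, add_zero]
      have : ∑ i, (lam i ⬝ᵥ (D1 *ᵥ w) * (f' i).re + lam i ⬝ᵥ (D2 *ᵥ w) * (f i).re) =
          vRE lam f' ⬝ᵥ (D1 *ᵥ w) + vRE lam f ⬝ᵥ (D2 *ᵥ w) := by
        rw [vRE_dot, vRE_dot, ← Finset.sum_add_distrib]
        exact Finset.sum_congr rfl fun i _ => by ring
      rw [this, r0, r1, m1, m2]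
      linear_combination r2 (T *ᵥ w)
    · rw [im_sum]
      simp only [QuadraticAlgebra.im_add, QuadraticAlgebra.im_mul, QuadraticAlgebra.im_zero,
        zero_mul, add_zero]
      have : ∑ i, (lam i ⬝ᵥ (D1 *ᵥ w) * (f' i).im + lam i ⬝ᵥ (D2 *ᵥ w) * (f i).im) =
          p' ⬝ᵥ (D1 *ᵥ w) + p ⬝ᵥ (D2 *ᵥ w) := by
        rw [hp, hp', vIM_dot, vIM_dot, ← Finset.sum_add_distrib]
        exact Finset.sum_congr rfl fun i _ => by ring
      rw [this, r2]
  have s3 : ∑ i, ((⟨lam i ⬝ᵥ (D2 *ᵥ w), 0⟩ : QuadraticAlgebra P g 0) * f' i) = 0 := by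
    apply QuadraticAlgebra.ext
    · rw [re_sum]
      simp only [QuadraticAlgebra.re_mul, QuadraticAlgebra.re_zero, mul_zero, zero_mul, add_zero]
      have : ∑ i, (lam i ⬝ᵥ (D2 *ᵥ w) * (f' i).re) = vRE lam f' ⬝ᵥ (D2 *ᵥ w) := by
        rw [vRE_dot]
        exact Finset.sum_congr rfl fun i _ => by ring
      rw [this, r1, m2, m3]
      linear_combination r2 (D1 *ᵥ w) + r3 (T *ᵥ w)
    · rw [im_sum]
      simp only [QuadraticAlgebra.im_mul, QuadraticAlgebra.im_zero, zero_mul, add_zero]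
      have : ∑ i, (lam i ⬝ᵥ (D2 *ᵥ w) * (f' i).im) = p' ⬝ᵥ (D2 *ᵥ w) := by
        rw [hp', vIM_dot]
        exact Finset.sum_congr rfl fun i _ => by ring
      rw [this, r3]
  have key : ∑ i, (PowerSeries.C (hat g T (lam i) w) +
      PowerSeries.X * PowerSeries.C (⟨lam i ⬝ᵥ (D1 *ᵥ w), 0⟩ : QuadraticAlgebra P g 0) +
      PowerSeries.X ^ 2 * PowerSeries.C (⟨lam i ⬝ᵥ (D2 *ᵥ w), 0⟩ : QuadraticAlgebra P g 0)) *
      (PowerSeries.C (f i) + PowerSeries.X * PowerSeries.C (f' i)) =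
      PowerSeries.C (∑ i, hat g T (lam i) w * f i) +
      PowerSeries.X * PowerSeries.C (∑ i, (hat g T (lam i) w * f' i +
        (⟨lam i ⬝ᵥ (D1 *ᵥ w), 0⟩ : QuadraticAlgebra P g 0) * f i)) +
      PowerSeries.X ^ 2 * PowerSeries.C (∑ i,
        ((⟨lam i ⬝ᵥ (D1 *ᵥ w), 0⟩ : QuadraticAlgebra P g 0) * f' i +
        (⟨lam i ⬝ᵥ (D2 *ᵥ w), 0⟩ : QuadraticAlgebra P g 0) * f i)) +
      PowerSeries.X ^ 3 * PowerSeries.C (∑ i,
        ((⟨lam i ⬝ᵥ (D2 *ᵥ w), 0⟩ : QuadraticAlgebra P g 0) * f' i)) := by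
    simp only [map_sum, Finset.mul_sum, ← Finset.sum_add_distrib]
    apply Finset.sum_congr rfl
    intro i _
    simp only [map_add, map_mul]
    ring
  rw [key, s0, s1, s2, s3]
  simp

/-- the square of the deformed matrix -/
theorem sq_family [DecidableEq n] {P' : Type u} [CommRing P'] (j : P →+* P') (t : P')
    {T D1 D2 : Matrix n n P} (hT : T * T = g • (1 : Matrix n n P))
    (h1 : T * D1 + D1 * T = 0) (h2 : T * D2 + D2 * T + D1 * D1 = 0)
    (h3 : D1 * D2 + D2 * D1 = 0) (h4 : D2 * D2 = 0) :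
    (T.map j + t • D1.map j + t ^ 2 • D2.map j) * (T.map j + t • D1.map j + t ^ 2 • D2.map j) =
      j g • (1 : Matrix n n P') := by
  have e0 : T.map j * T.map j = j g • (1 : Matrix n n P') := by
    rw [← Matrix.map_mul, hT]
    ext a b
    rw [Matrix.map_apply, Matrix.smul_apply, Matrix.smul_apply, smul_eq_mul, smul_eq_mul, map_mul,
      Matrix.one_apply, Matrix.one_apply]
    split_ifs <;> simp
  have e1 : T.map j * D1.map j + D1.map j * T.map j = 0 := by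
    rw [← Matrix.map_mul, ← Matrix.map_mul, ← Matrix.map_add _ (map_add j), h1]
    exact Matrix.map_zero _ (map_zero j)
  have e2 : T.map j * D2.map j + D2.map j * T.map j + D1.map j * D1.map j = 0 := by
    rw [← Matrix.map_mul, ← Matrix.map_mul, ← Matrix.map_mul, ← Matrix.map_add _ (map_add j),
      ← Matrix.map_add _ (map_add j), h2]
    exact Matrix.map_zero _ (map_zero j)
  have e3 : D1.map j * D2.map j + D2.map j * D1.map j = 0 := by
    rw [← Matrix.map_mul, ← Matrix.map_mul, ← Matrix.map_add _ (map_add j), h3]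
    exact Matrix.map_zero _ (map_zero j)
  have e4 : D2.map j * D2.map j = 0 := by
    rw [← Matrix.map_mul, h4]
    exact Matrix.map_zero _ (map_zero j)
  calc _ = T.map j * T.map j + t • (T.map j * D1.map j + D1.map j * T.map j) +
        t ^ 2 • (T.map j * D2.map j + D2.map j * T.map j + D1.map j * D1.map j) +
        t ^ 3 • (D1.map j * D2.map j + D2.map j * D1.map j) + t ^ 4 • (D2.map j * D2.map j) := by
        simp only [Matrix.add_mul, Matrix.mul_add, Matrix.smul_mul, Matrix.mul_smul]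
        module
    _ = _ := by rw [e0, e1, e2, e3, e4]; simp

/-- row vectors under the deformed matrix -/
theorem vecMul_family {P' : Type u} [CommRing P'] (j : P →+* P') (t : P')
    (T D1 D2 : Matrix n n P) (v : n → P) :
    (j ∘ v) ᵥ* (T.map j + t • D1.map j + t ^ 2 • D2.map j) =
      (j ∘ (v ᵥ* T)) + t • (j ∘ (v ᵥ* D1)) + t ^ 2 • (j ∘ (v ᵥ* D2)) := by
  ext k
  rw [Matrix.vecMul_add, Matrix.vecMul_add, Matrix.vecMul_smul, Matrix.vecMul_smul]
  simp only [Pi.add_apply, Pi.smul_apply, Function.comp, RingHom.map_vecMul]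

end

/-- [STEP] -/
theorem step (hRS : T_RS.{u}) (hKER : T_KER.{u}) (hSYZ : T_SYZ.{u}) (hLIFT : T_LIFT.{u})
    (hHID : T_HID.{u}) (hFINM : T_FINM.{u}) (hFAM : T_FAM.{u}) : T_STEP.{u} := by
  intro k Ω Ω' _ _ _ _ _ _ _ κ ι hι m n _ _ T lam f hP D hs
  have hch : CharZero Ω := charZero_of_hom κ
  obtain ⟨i1, i2, i3, i4⟩ := hHID (P2 Ω) (g4 Ω) n T D hP.sq
  obtain ⟨N, hN⟩ := hP.cofM
  -- the lift
  have h2 : IsUnit (2 : P2 Ω) := by
    rw [isUnit_P2, map_ofNat]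
    exact two_ne_zero
  have hpow : ∃ e : ℕ, ∀ ρ : n → P2 Ω, ∃ r : Fin (m + 1) → AA Ω,
      act T lam r = D.s ^ e • ρ := by
    refine ⟨2 * N, fun ρ => ?_⟩
    obtain ⟨a, b, hab⟩ := exists_of_ev0 D.s hs
    have hmem : (px Ω * a + py Ω * b) ^ (2 * N) ∈ Ideal.span {px Ω ^ N, py Ω ^ N} := by
      apply Ideal.add_pow_mem_of_pow_mem_of_le (m := N) (n := N)
      · rw [mul_pow]
        exact Ideal.mul_mem_right _ _ (Ideal.subset_span (by simp))
      · rw [mul_pow]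
        exact Ideal.mul_mem_right _ _ (Ideal.subset_span (by simp))
      · omega
    rw [← hab] at hmem
    obtain ⟨c, d, hcd⟩ := Ideal.mem_span_pair.1 hmem
    obtain ⟨⟨r1, hr1⟩, ⟨r2, hr2⟩⟩ := hN ρ
    refine ⟨c • r1 + d • r2, ?_⟩
    rw [← actL_apply, map_add, map_smul, map_smul, actL_apply, actL_apply, hr1, hr2, smul_smul,
      smul_smul, ← add_smul, hcd]
  obtain ⟨f', l1, l2, l3⟩ := hLIFT (P2 Ω) (g4 Ω) n (Fin (m + 1)) T lam f D h2 hP.sq hP.rel
    (fun r hr => hKER Ω m n T lam f hP r hr) (px Ω ^ N) (py Ω ^ N)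
    (pow_ne_zero _ px_ne_zero) (pow_ne_zero _ py_ne_zero)
    (fun a b hab => (hRS Ω N N).1 a b hab) (fun ρ => (hN ρ).1) (fun ρ => (hN ρ).2) hpow
  -- the family
  set j : P2 Ω →+* P2 Ω' := mapP (ι.comp PowerSeries.C) with hj
  set t : P2 Ω' := cst (ι PowerSeries.X) with ht
  have ht2 : cst (ι PowerSeries.X ^ 2) = t ^ 2 := by
    rw [sq, sq, cst_mul]
  obtain ⟨q1, q2⟩ := hFAM k Ω Ω' κ ι hι (Fin (m + 1)) f f' hP.cofI (by
    intro gg hgg
    obtain ⟨w, hw⟩ := hSYZ Ω m n T lam f hP gg (by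
      rw [← hgg]
      exact Finset.sum_congr rfl fun i _ => mul_comm _ _)
    refine ⟨fun i => PowerSeries.C (hat (g4 Ω) T (lam i) w) +
      PowerSeries.X * PowerSeries.C (⟨lam i ⬝ᵥ (D.D1 *ᵥ w), 0⟩ : AA Ω) +
      PowerSeries.X ^ 2 * PowerSeries.C (⟨lam i ⬝ᵥ (D.D2 *ᵥ w), 0⟩ : AA Ω), ?_, ?_⟩
    · intro i
      rw [hw i]
      simp
    · exact lift_rel hP.sq i1 i2 i3 lam f f' hP.rel l1 l2 l3 w)
  refine ⟨fun i => mapA (ι.comp PowerSeries.C) (f i) +
    algebraMap Ω' (AA Ω') (ι PowerSeries.X) * mapA (ι.comp PowerSeries.C) (f' i), ?_, q2⟩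
  rw [ht2]
  have hsqT := sq_family j t hP.sq i1 i2 i3 i4
  refine ⟨?_, hP.card, ?_, q1, ?_⟩
  · rw [hsqT, hj, mapP_g4]
  · -- rel
    have hre : ∀ i, (mapA (ι.comp PowerSeries.C) (f i) +
        algebraMap Ω' (AA Ω') (ι PowerSeries.X) * mapA (ι.comp PowerSeries.C) (f' i)).re =
        j (f i).re + t * j (f' i).re := by
      intro i
      rw [QuadraticAlgebra.re_add, QuadraticAlgebra.re_mul, algebraMap_AA, mapA_re, mapA_re]
      simp only [mul_zero, zero_mul, add_zero]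
      rfl
    have him : ∀ i, (mapA (ι.comp PowerSeries.C) (f i) +
        algebraMap Ω' (AA Ω') (ι PowerSeries.X) * mapA (ι.comp PowerSeries.C) (f' i)).im =
        j (f i).im + t * j (f' i).im := by
      intro i
      rw [QuadraticAlgebra.im_add, QuadraticAlgebra.im_mul, algebraMap_AA, mapA_im, mapA_im]
      simp only [zero_mul, add_zero]
      rfl
    rw [act_eq]
    have hlin : ∀ c : Fin (m + 1) → P2 Ω, ∑ i, (j (c i)) • (j ∘ lam i) =
        j ∘ (∑ i, c i • lam i) := by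
      intro c
      ext1 k'
      simp only [Finset.sum_apply, Pi.smul_apply, Function.comp, smul_eq_mul, map_sum, map_mul]
    have hR : vRE (fun i => j ∘ lam i) (fun i => mapA (ι.comp PowerSeries.C) (f i) +
        algebraMap Ω' (AA Ω') (ι PowerSeries.X) * mapA (ι.comp PowerSeries.C) (f' i)) =
        j ∘ vRE lam f + t • (j ∘ vRE lam f') := by
      unfold vRE
      simp only [hre, add_smul, Finset.sum_add_distrib, ← smul_smul]
      rw [← Finset.smul_sum, hlin, hlin]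
    have hI : vIM (fun i => j ∘ lam i) (fun i => mapA (ι.comp PowerSeries.C) (f i) +
        algebraMap Ω' (AA Ω') (ι PowerSeries.X) * mapA (ι.comp PowerSeries.C) (f' i)) =
        j ∘ vIM lam f + t • (j ∘ vIM lam f') := by
      unfold vIM
      simp only [him, add_smul, Finset.sum_add_distrib, ← smul_smul]
      rw [← Finset.smul_sum, hlin, hlin]
    rw [hR, hI, Matrix.add_vecMul, Matrix.smul_vecMul, vecMul_family, vecMul_family]
    have l0 := hP.rel
    rw [act_eq] at l0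
    rw [act_eq, act1_eq] at l1
    rw [act1_eq, act1_eq] at l2
    rw [act1_eq] at l3
    ext1 k'
    have c0 := congrArg j (congrFun l0 k')
    have c1 := congrArg j (congrFun l1 k')
    have c2 := congrArg j (congrFun l2 k')
    have c3 := congrArg j (congrFun l3 k')
    simp only [Pi.add_apply, Pi.zero_apply, map_add, map_zero] at c0 c1 c2 c3
    simp only [Pi.add_apply, Pi.smul_apply, Pi.zero_apply, Function.comp, smul_eq_mul]
    linear_combination c0 + t * c1 + t ^ 2 * c2 + t ^ 3 * c3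
  · -- cofM
    obtain ⟨M, hM⟩ := hFINM Ω Ω' ι hι n (Fin (m + 1) ⊕ Fin (m + 1))
      (Sum.elim lam fun i => lam i ᵥ* T) (Sum.elim 0 fun i => lam i ᵥ* D.D1)
      (Sum.elim 0 fun i => lam i ᵥ* D.D2) ⟨N, fun ρ => ⟨(mem_span_iff T lam _).2 (hN ρ).1,
        (mem_span_iff T lam _).2 (hN ρ).2⟩⟩
    have hfun : (fun i : Fin (m + 1) ⊕ Fin (m + 1) =>
        (mapP (ι.comp PowerSeries.C) ∘ (Sum.elim lam (fun i => lam i ᵥ* T) :
          Fin (m + 1) ⊕ Fin (m + 1) → n → P2 Ω) i) +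
        cst (ι PowerSeries.X) • (mapP (ι.comp PowerSeries.C) ∘ (Sum.elim 0
          (fun i => lam i ᵥ* D.D1) : Fin (m + 1) ⊕ Fin (m + 1) → n → P2 Ω) i) +
        cst (ι PowerSeries.X ^ 2) • (mapP (ι.comp PowerSeries.C) ∘ (Sum.elim 0
          (fun i => lam i ᵥ* D.D2) : Fin (m + 1) ⊕ Fin (m + 1) → n → P2 Ω) i)) =
        Sum.elim (fun i => j ∘ lam i) (fun i => (j ∘ lam i) ᵥ*
          (T.map j + t • D.D1.map j + t ^ 2 • D.D2.map j)) := by
      funext i
      rw [ht2, ← hj, ← ht]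
      rcases i with i | i
      · simp only [Sum.elim_inl, Pi.zero_apply]
        have : j ∘ (0 : n → P2 Ω) = 0 := by ext1 k'; simp
        rw [this, smul_zero, smul_zero, add_zero, add_zero]
      · simp only [Sum.elim_inr]
        rw [vecMul_family]
    refine ⟨M, fun ρ => ?_⟩
    obtain ⟨a1, a2⟩ := hM ρ
    rw [hfun] at a1 a2
    exact ⟨(mem_span_iff _ _ _).1 a1, (mem_span_iff _ _ _).1 a2⟩

end Pool.Agent.H70.HZ.STEP
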