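import Pool.Agent.H70.HZ.KER

/-!
# MP_eb1332_ag, module SYZ: the syzygies of `f`
-/

namespace Pool.Agent.H70.HZ.SYZ

open Matrix Pool.Agent.H12.HS Pool.Agent.H70.HZ.KER

universe u

section
variable {Ω : Type u} [Field Ω] {m : ℕ} {n : Type} [Fintype n] [DecidableEq n]

/-- the embedding of the syzygies -/
noncomputable def hatL (T : Matrix n n (P2 Ω)) (lam : Fin (m + 1) → n → P2 Ω) :
    (n → P2 Ω) →ₗ[P2 Ω] (Fin (m + 1) → AA Ω) where
  toFun w := fun i => hat (g4 Ω) T (lam i) w
  map_add' w w' := by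
    ext i
    · simp only [hat, Pi.add_apply, QuadraticAlgebra.re_add, Matrix.mulVec_add, dotProduct_add]
    · simp only [hat, Pi.add_apply, QuadraticAlgebra.im_add, dotProduct_add]
  map_smul' c w := by
    ext i
    · simp only [hat, Pi.smul_apply, QuadraticAlgebra.re_smul, Matrix.mulVec_smul, dotProduct_smul,
        RingHom.id_apply]
    · simp only [hat, Pi.smul_apply, QuadraticAlgebra.im_smul, dotProduct_smul, RingHom.id_apply]

omit [DecidableEq n] in
theorem hatL_apply (T : Matrix n n (P2 Ω)) (lam : Fin (m + 1) → n → P2 Ω) (w : n → P2 Ω)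
    (i : Fin (m + 1)) : hatL T lam w i = hat (g4 Ω) T (lam i) w := rfl

/-- the pairing with `f` -/
noncomputable def psiL (f : Fin (m + 1) → AA Ω) : (Fin (m + 1) → AA Ω) →ₗ[P2 Ω] AA Ω where
  toFun h := ∑ i, f i * h i
  map_add' a b := by simp only [Pi.add_apply, mul_add, Finset.sum_add_distrib]
  map_smul' c a := by
    simp only [Pi.smul_apply, RingHom.id_apply, Finset.smul_sum, mul_smul_comm]

theorem psiL_apply (f h : Fin (m + 1) → AA Ω) : psiL f h = ∑ i, f i * h i := rfl

end

theorem syz (hRS : T_RS.{u}) (hDOM : T_DOM.{u}) : T_SYZ.{u} := by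
  intro Ω _ _ _ m n _ _ T lam f hP h hh
  have hdom : IsDomain (AA Ω) := (hDOM Ω).2
  obtain ⟨N, hN⟩ := hP.cofM
  obtain ⟨i0, hi0⟩ := exists_ne hP.cofI
  -- rank of the syzygies
  have hrk : Module.finrank (P2 Ω) (LinearMap.ker (psiL f)) ≤ Fintype.card n := by
    have h1 := finrank_ker_add (psiL f)
    rw [finrank_AAfun] at h1
    have h2 : 2 ≤ Module.finrank (P2 Ω) (LinearMap.range (psiL f)) := by
      let j : AA Ω →ₗ[P2 Ω] LinearMap.range (psiL f) :=
        LinearMap.codRestrict _ (LinearMap.mulLeft (P2 Ω) (f i0)) (by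
          intro c
          refine ⟨Pi.single i0 c, ?_⟩
          rw [psiL_apply, Finset.sum_eq_single i0]
          · rw [Pi.single_eq_same]; rfl
          · intro b _ hb
            rw [Pi.single_eq_of_ne hb, mul_zero]
          · simp)
      have hj : Function.Injective j := by
        intro a b hab
        have h3 := congrArg Subtype.val hab
        have h4 : f i0 * a = f i0 * b := h3
        exact mul_left_cancel₀ hi0 h4
      have h5 := LinearMap.finrank_le_finrank_of_injective hj
      rwa [QuadraticAlgebra.finrank_eq_two] at h5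
    have h3 := hP.card
    omega
  let ι : (n → P2 Ω) →ₗ[P2 Ω] LinearMap.ker (psiL f) :=
    LinearMap.codRestrict _ (hatL T lam) (by
      intro w
      rw [LinearMap.mem_ker, psiL_apply]
      have h1 := sum_mul_hat T hP.sq lam f w
      simp only [hatL_apply]
      rw [h1, hP.rel, zero_dotProduct, zero_dotProduct]
      rfl)
  have hι : Function.Injective ι := by
    rw [← LinearMap.ker_eq_bot, LinearMap.ker_eq_bot']
    intro w hw
    have h1 : ∀ i, hat (g4 Ω) T (lam i) w = 0 := fun i =>
      congrFun (congrArg Subtype.val hw) i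
    ext1 j
    obtain ⟨r, hr⟩ := (hN (Pi.single j 1)).1
    have h2 := sum_mul_hat T hP.sq lam r w
    simp only [h1, mul_zero, Finset.sum_const_zero] at h2
    have h3 := congrArg QuadraticAlgebra.im h2
    have h4 : (0 : P2 Ω) = act T lam r ⬝ᵥ w := h3
    rw [hr, smul_dotProduct, single_one_dotProduct, smul_eq_mul] at h4
    rcases mul_eq_zero.1 h4.symm with h5 | h5
    · exact absurd h5 (pow_ne_zero N px_ne_zero)
    · exact h5
  obtain ⟨b, hb0, w', hw'⟩ := tors ι hι (by rwa [Module.finrank_pi]) ⟨h, by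
    rw [LinearMap.mem_ker, psiL_apply]; exact hh⟩
  have hbh : ∀ i, b • h i = hat (g4 Ω) T (lam i) w' := fun i =>
    congrFun (congrArg Subtype.val hw') i
  -- divisibility
  have hdiv : ∀ (r : Fin (m + 1) → AA Ω), act T lam r ⬝ᵥ w' = b * (∑ i, r i * h i).im := by
    intro r
    have h2 := congrArg QuadraticAlgebra.im (sum_mul_hat T hP.sq lam r w')
    simp only [← hbh, mul_smul_comm, ← Finset.smul_sum, QuadraticAlgebra.im_smul,
      smul_eq_mul] at h2
    exact h2.symm
  have hw : ∀ j, ∃ c, w' j = b * c := by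
    intro j
    obtain ⟨⟨r1, hr1⟩, ⟨r2, hr2⟩⟩ := hN (Pi.single j 1)
    have e1 := hdiv r1
    have e2 := hdiv r2
    rw [hr1, smul_dotProduct, single_one_dotProduct, smul_eq_mul] at e1
    rw [hr2, smul_dotProduct, single_one_dotProduct, smul_eq_mul] at e2
    have e3 : px Ω ^ N * (∑ i, r2 i * h i).im = py Ω ^ N * (∑ i, r1 i * h i).im := by
      apply mul_left_cancel₀ hb0
      calc b * (px Ω ^ N * (∑ i, r2 i * h i).im) = px Ω ^ N * (b * (∑ i, r2 i * h i).im) := by ring
        _ = py Ω ^ N * (b * (∑ i, r1 i * h i).im) := by rw [← e1, ← e2]; ring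
        _ = _ := by ring
    obtain ⟨c, -, hc2⟩ := (hRS Ω N N).1 _ _ e3
    refine ⟨c, ?_⟩
    apply mul_left_cancel₀ (pow_ne_zero N (px_ne_zero (Ω := Ω)))
    rw [e1, hc2]
    ring
  choose w hw using hw
  refine ⟨w, fun i => ?_⟩
  have h5 : b • h i = b • hat (g4 Ω) T (lam i) w := by
    rw [hbh i]
    have h6 : w' = b • w := funext hw
    rw [h6]
    have := (hatL T lam).map_smul b w
    exact congrFun this i
  exact smul_right_injective _ hb0 h5

end Pool.Agent.H70.HZ.SYZ
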